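import Mathlib
import Pool.Agent.Helper23_LAP.Stmts

/-!
# LAP, module SK1: event (K1)
-/

set_option autoImplicit false

namespace Pool.Agent.LAP.H65

open scoped Classical
open Pool.Agent.LAP

theorem pr_mono {U S : Type} [Fintype U] [Fintype S] {A B : Set (U → S)} (h : A ⊆ B) :
    pr A ≤ pr B := by
  unfold pr
  apply div_le_div_of_nonneg_right _ (by positivity)
  exact_mod_cast Finset.card_le_card (fun ω hω => by
    simp only [Finset.mem_filter, Finset.mem_univ, true_and] at hω ⊢
    exact h hω)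

theorem lnk_single {W : Type} (r : W → W → Prop) (z : W) : Lnk r {z} := by
  refine ⟨⟨z, by simp⟩, ?_⟩
  intro u hu v hv
  simp only [Finset.mem_singleton] at hu hv
  subst hu; subst hv
  exact Relation.ReflTransGen.refl

/-- Crossing arcs and the closure: both ends of a crossing arc are near `Q`. -/
theorem crs_near {α β : Type} [Fintype α] [Fintype β] {E R : Finset (α × β)} {X : Finset α}
    {Y : Finset β} {L : ℕ} {Q : Finset (α ⊕ β)} (hL : 1 ≤ L) (hRE : R ⊆ E) {a : α × β}
    (ha : a ∈ crs R X Y (clA E (L ^ 2) Q) (clB E (L ^ 2) Q)) :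
    (∃ z ∈ Q, nr3 (sadj E) (Sum.inl a.1) z) ∧ ∃ z ∈ Q, nr3 (sadj E) (Sum.inr a.2) z := by
  have hL2 : 0 < L ^ 2 := by positivity
  have haR : a ∈ E := by
    rcases Finset.mem_union.mp ha with h | h
    · exact hRE (Finset.mem_filter.mp h).1
    · exact hRE (Finset.mem_filter.mp h).1
  obtain ⟨x, y⟩ := a
  rcases Finset.mem_union.mp ha with h | h
  · -- head in the closure
    have hy : y ∈ clB E (L ^ 2) Q := (Finset.mem_filter.mp h).2.2.2
    have hy' := (Finset.mem_filter.mp hy).2
    have hpos : 0 < (inn E y ∩ lp Q).card := lt_of_lt_of_le hL2 hy'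
    obtain ⟨x', hx'⟩ := Finset.card_pos.mp hpos
    have h1 : (x', y) ∈ E := (Finset.mem_filter.mp (Finset.mem_inter.mp hx').1).2
    have h2 : Sum.inl x' ∈ Q := (Finset.mem_filter.mp (Finset.mem_inter.mp hx').2).2
    refine ⟨⟨_, h2, ?_⟩, ⟨_, h2, ?_⟩⟩
    · exact ⟨Sum.inr y, Sum.inl x', Or.inr haR, Or.inr h1, Or.inl rfl⟩
    · exact ⟨Sum.inl x', Sum.inl x', Or.inr h1, Or.inl rfl, Or.inl rfl⟩
  · have hx : x ∈ clA E (L ^ 2) Q := (Finset.mem_filter.mp h).2.1.2
    have hx' := (Finset.mem_filter.mp hx).2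
    have hpos : 0 < (out E x ∩ rp Q).card := lt_of_lt_of_le hL2 hx'
    obtain ⟨y', hy'⟩ := Finset.card_pos.mp hpos
    have h1 : (x, y') ∈ E := (Finset.mem_filter.mp (Finset.mem_inter.mp hy').1).2
    have h2 : Sum.inr y' ∈ Q := (Finset.mem_filter.mp (Finset.mem_inter.mp hy').2).2
    refine ⟨⟨_, h2, ?_⟩, ⟨_, h2, ?_⟩⟩
    · exact ⟨Sum.inr y', Sum.inr y', Or.inr h1, Or.inl rfl, Or.inl rfl⟩
    · exact ⟨Sum.inl x, Sum.inr y', Or.inr haR, Or.inr h1, Or.inl rfl⟩

theorem crs_mem {α β : Type} {R : Finset (α × β)} {X : Finset α} {Y : Finset β} {A : Finset α}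
    {B : Finset β} {a : α × β} (ha : a ∈ crs R X Y A B) : a ∈ R ∧ a.1 ∈ X ∧ a.2 ∈ Y := by
  rcases Finset.mem_union.mp ha with h | h
  · have := Finset.mem_filter.mp h
    exact ⟨this.1, this.2.1.1, this.2.2.1⟩
  · have := Finset.mem_filter.mp h
    exact ⟨this.1, this.2.1.1, this.2.2.1⟩

/-- Weight of a site: number of arcs of `C` at the site. -/
noncomputable def wt {α β : Type} (C : Finset (α × β)) (s : α ⊕ β) : ℝ :=
  ∑ a ∈ C, ((if s = Sum.inl a.1 then (1 : ℝ) else 0) + (if s = Sum.inr a.2 then (1 : ℝ) else 0))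

theorem wt_nonneg {α β : Type} (C : Finset (α × β)) (s : α ⊕ β) : 0 ≤ wt C s := by
  unfold wt
  apply Finset.sum_nonneg
  intro a _
  positivity

theorem wt_inl {α β : Type} [Fintype α] [Fintype β] {E : Finset (α × β)} {C : Finset (α × β)}
    {Y : Finset β} (hC : ∀ a ∈ C, a ∈ E ∧ a.2 ∈ Y) (x : α) :
    wt C (Sum.inl x : α ⊕ β) ≤ ((out E x ∩ Y).card : ℝ) := by
  have h1 : wt C (Sum.inl x : α ⊕ β) = ((C.filter fun a => x = a.1).card : ℝ) := by
    unfold wt
    simp [Finset.sum_boole]
  rw [h1]
  have h2 : (C.filter fun a => x = a.1).card ≤ (out E x ∩ Y).card := by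
    apply Finset.card_le_card_of_injOn Prod.snd
    · intro a ha
      have ha := Finset.mem_filter.mp (Finset.mem_coe.mp ha)
      obtain ⟨hE, hY⟩ := hC a ha.1
      apply Finset.mem_coe.mpr
      refine Finset.mem_inter.mpr ⟨Finset.mem_filter.mpr ⟨Finset.mem_univ _, ?_⟩, hY⟩
      rw [ha.2]; exact hE
    · intro a ha b hb hab
      have ha := Finset.mem_filter.mp (Finset.mem_coe.mp ha)
      have hb := Finset.mem_filter.mp (Finset.mem_coe.mp hb)
      exact Prod.ext (by rw [← ha.2, ← hb.2]) hab
  exact_mod_cast h2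

theorem wt_inr {α β : Type} [Fintype α] [Fintype β] {E : Finset (α × β)} {C : Finset (α × β)}
    {X : Finset α} (hC : ∀ a ∈ C, a ∈ E ∧ a.1 ∈ X) (y : β) :
    wt C (Sum.inr y : α ⊕ β) ≤ ((inn E y ∩ X).card : ℝ) := by
  have h1 : wt C (Sum.inr y : α ⊕ β) = ((C.filter fun a => y = a.2).card : ℝ) := by
    unfold wt
    simp [Finset.sum_boole]
  rw [h1]
  have h2 : (C.filter fun a => y = a.2).card ≤ (inn E y ∩ X).card := by
    apply Finset.card_le_card_of_injOn Prod.fst
    · intro a ha
      have ha := Finset.mem_filter.mp (Finset.mem_coe.mp ha)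
      obtain ⟨hE, hX⟩ := hC a ha.1
      apply Finset.mem_coe.mpr
      refine Finset.mem_inter.mpr ⟨Finset.mem_filter.mpr ⟨Finset.mem_univ _, ?_⟩, hX⟩
      rw [ha.2]; exact hE
    · intro a ha b hb hab
      have ha := Finset.mem_filter.mp (Finset.mem_coe.mp ha)
      have hb := Finset.mem_filter.mp (Finset.mem_coe.mp hb)
      exact Prod.ext hab (by rw [← ha.2, ← hb.2])
  exact_mod_cast h2

/-- Double counting. -/
theorem wt_sum {α β : Type} [Fintype α] [Fintype β] {q : ℕ} (C : Finset (α × β)) (c : Fin q)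
    (f : Fin q × (α ⊕ β) → ℝ) :
    ∑ u ∈ ({c} : Finset (Fin q)) ×ˢ (Finset.univ : Finset (α ⊕ β)), f u * wt C u.2 =
      ∑ a ∈ C, (f (c, Sum.inl a.1) + f (c, Sum.inr a.2)) := by
  rw [Finset.sum_product, Finset.sum_singleton]
  simp only [wt]
  simp_rw [Finset.mul_sum]
  rw [Finset.sum_comm]
  apply Finset.sum_congr rfl
  intro a _
  simp_rw [mul_add]
  rw [Finset.sum_add_distrib]
  congr 1
  · simp
  · simp

theorem sk1 (hTHU : THUStmt) : SK1Stmt := by
  intro k L q D δ η r T Rr ζ P P' hp α β _ _ E R X Y hcl c Q hQ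
  have hL4 := hp.L4
  have hL1 : 1 ≤ L := by omega
  have hLR : (10 : ℝ) ^ 4 ≤ L := by exact_mod_cast hL4
  have hL0 : (0 : ℝ) < L := by linarith
  have hLp : (1 : ℝ) ≤ L := by linarith
  have hD0 : 0 < D := lt_of_lt_of_le (by positivity) hp.D1
  have hP'R : (0 : ℝ) < P' := by
    have := hp.s3
    have h4 : (0 : ℝ) < (L : ℝ) ^ 4 := by positivity
    linarith
  have hP'N : 0 < P' := by exact_mod_cast hP'R
  have : Nonempty (Fin P') := ⟨⟨0, hP'N⟩⟩
  have hδ1 : δ ≤ 1 := by
    by_contra hcon
    push Not at hcon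
    have h3 : (10 : ℝ) ≤ (L : ℝ) ^ 3 := by
      calc (10 : ℝ) ≤ L := by linarith
        _ = (L : ℝ) ^ 1 := by ring
        _ ≤ (L : ℝ) ^ 3 := pow_le_pow_right₀ hLp (by norm_num)
    have := hp.d1
    nlinarith
  set C := crs R (X c) (Y c) (clA E (L ^ 2) Q) (clB E (L ^ 2) Q) with hC
  have hCE : ∀ a ∈ C, a ∈ E ∧ a.2 ∈ Y c := fun a ha =>
    ⟨(hcl c).sub (crs_mem ha).1, (crs_mem ha).2.2⟩
  have hCE' : ∀ a ∈ C, a ∈ E ∧ a.1 ∈ X c := fun a ha =>
    ⟨(hcl c).sub (crs_mem ha).1, (crs_mem ha).2.1⟩
  have hcq : cq E R (X c) (Y c) L Q = (C.card : ℝ) := rfl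
  right
  refine ⟨hQ, ?_, ?_⟩
  · -- locality
    refine ⟨Finset.univ.filter fun u => u.1 = c ∧ ∃ a ∈ C, u.2 = Sum.inl a.1 ∨ u.2 = Sum.inr a.2,
      ?_, ?_⟩
    · intro ω ω' hag hω
      simp only [Set.mem_ofPred_eq] at hω ⊢
      have e1 : (C.filter fun a => a.1 ∈ skX X ω c) = C.filter fun a => a.1 ∈ skX X ω' c := by
        apply Finset.filter_congr
        intro a ha
        have := hag (c, Sum.inl a.1) (by
          simp only [Finset.mem_filter, Finset.mem_univ, true_and]
          exact ⟨a, ha, Or.inl rfl⟩)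
        simp only [skX, Finset.mem_filter, this]
      have e2 : (C.filter fun a => a.2 ∈ skY Y ω c) = C.filter fun a => a.2 ∈ skY Y ω' c := by
        apply Finset.filter_congr
        intro a ha
        have := hag (c, Sum.inr a.2) (by
          simp only [Finset.mem_filter, Finset.mem_univ, true_and]
          exact ⟨a, ha, Or.inr rfl⟩)
        simp only [skY, Finset.mem_filter, this]
      rw [← e1, ← e2]
      exact hω
    · intro u hu
      simp only [Finset.mem_filter, Finset.mem_univ, true_and] at hu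
      obtain ⟨_, a, ha, hau⟩ := hu
      obtain ⟨⟨z, hz, hz'⟩, ⟨w, hw, hw'⟩⟩ := crs_near hL1 (hcl c).sub ha
      refine ⟨u.2, by simp [locK], ?_⟩
      rcases hau with h | h
      · exact ⟨z, hz, by rw [h]; exact hz'⟩
      · exact ⟨w, hw, by rw [h]; exact hw'⟩
  · -- probability
    set g : Fin q × (α ⊕ β) → Finset (Fin P') := fun _ =>
      Finset.univ.filter fun s => s.val = 0 with hg
    have hgc : ∀ u, (((g u).card : ℝ)) ≤ 1 := by
      intro u
      have : (g u).card ≤ 1 := by
        rw [Finset.card_le_one]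
        intro a ha b hb
        have ha := (Finset.mem_filter.mp ha).2
        have hb := (Finset.mem_filter.mp hb).2
        exact Fin.ext (by rw [ha, hb])
      exact_mod_cast this
    have key := hTHU (Fin q × (α ⊕ β)) (Fin P')
      (({c} : Finset (Fin q)) ×ˢ (Finset.univ : Finset (α ⊕ β))) (fun u => wt C u.2) g
      (2 * D) 1 (2 * (L : ℝ) ^ 2 * Q.card * D) (4 / (L : ℝ) ^ 4 * C.card) (by positivity)
      (by norm_num) (le_refl _) ?_ ?_
    · refine le_trans (pr_mono ?_) (le_trans key ?_)
      · intro ω hω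
        simp only [Set.mem_ofPred_eq, not_le] at hω ⊢
        have hsum : (((C.filter fun a => a.1 ∈ skX X ω c).card : ℕ) : ℝ) +
            ((C.filter fun a => a.2 ∈ skY Y ω c).card : ℕ) ≤
            ∑ u ∈ ({c} : Finset (Fin q)) ×ˢ (Finset.univ : Finset (α ⊕ β)),
              if ω u ∈ g u then wt C u.2 else 0 := by
          have e : ∑ u ∈ ({c} : Finset (Fin q)) ×ˢ (Finset.univ : Finset (α ⊕ β)),
              (if ω u ∈ g u then wt C u.2 else 0) =
              ∑ u ∈ ({c} : Finset (Fin q)) ×ˢ (Finset.univ : Finset (α ⊕ β)),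
              (if ω u ∈ g u then (1 : ℝ) else 0) * wt C u.2 := by
            apply Finset.sum_congr rfl
            intro u _
            split_ifs <;> simp
          rw [e, wt_sum C c (fun u => if ω u ∈ g u then (1 : ℝ) else 0), Finset.sum_add_distrib]
          apply add_le_add
          · rw [← Finset.sum_boole]
            apply Finset.sum_le_sum
            intro a _
            split_ifs with h1 h2 h2
            · exact le_refl _
            · exfalso
              apply h2
              simp only [skX, Finset.mem_filter] at h1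
              simp only [hg, Finset.mem_filter, Finset.mem_univ, true_and]
              exact h1.2
            · norm_num
            · exact le_refl _
          · rw [← Finset.sum_boole]
            apply Finset.sum_le_sum
            intro a _
            split_ifs with h1 h2 h2
            · exact le_refl _
            · exfalso
              apply h2
              simp only [skY, Finset.mem_filter] at h1
              simp only [hg, Finset.mem_filter, Finset.mem_univ, true_and]
              exact h1.2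
            · norm_num
            · exact le_refl _
        rw [hcq] at hω
        have h8 : (1 + 1) * (4 / (L : ℝ) ^ 4 * (C.card : ℝ)) = 8 / (L : ℝ) ^ 4 * C.card := by ring
        rw [h8]
        refine le_trans hω.le (le_trans hsum (le_of_eq ?_))
        apply Finset.sum_congr rfl
        intro u _
        congr!
      · apply le_of_eq
        congr 1
        rw [neg_inj]
        field_simp
    · intro u _
      refine ⟨wt_nonneg _ _, ?_⟩
      rcases hu : u.2 with x | y
      · have h1 := wt_inl hCE x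
        have h2 := (hcl c).ou x
        have h3 : (1 + δ) * D ≤ 2 * D := by nlinarith
        linarith
      · have h1 := wt_inr hCE' y
        have h2 := (hcl c).iu y
        have h3 : (1 + δ) * D ≤ 2 * D := by nlinarith
        linarith
    · have hcard : (Fintype.card (Fin P') : ℝ) = P' := by simp
      have hle : ∀ u : Fin q × (α ⊕ β), wt C u.2 * (((g u).card : ℝ) / (Fintype.card (Fin P') : ℝ)) ≤
          (2 / (L : ℝ) ^ 4) * wt C u.2 := by
        intro u
        rw [mul_comm]
        apply mul_le_mul_of_nonneg_right _ (wt_nonneg _ _)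
        rw [hcard]
        have h4 : (0 : ℝ) < (L : ℝ) ^ 4 := by positivity
        rw [div_le_div_iff₀ hP'R h4]
        have := hp.s3
        nlinarith [hgc u]
      refine le_trans (Finset.sum_le_sum fun u _ => hle u) ?_
      rw [wt_sum C c (fun _ => 2 / (L : ℝ) ^ 4), Finset.sum_const, nsmul_eq_mul]
      apply le_of_eq
      ring

end Pool.Agent.LAP.H65
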