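import Mathlib
import Pool.Agent.Helper23_LAP.Stmts
import Pool.Agent.Helper65_LAP.SK1

/-!
# LAP, module LB3: event (M3)
-/

set_option autoImplicit false

namespace Pool.Agent.LAP.H65

open scoped Classical
open Pool.Agent.LAP

/-- The labels that put the arc `a` into some sample. -/
noncomputable def gl {α β : Type} {q P : ℕ} (X : Fin q → Finset α) (Y : Fin q → Finset β)
    (slot : Fin q → α × β → Fin P) (a : α × β) : Finset (Fin P) :=
  (Finset.univ.filter fun d => a.1 ∈ X d ∧ a.2 ∈ Y d).image fun d => slot d a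

theorem mem_all {α β : Type} {q P : ℕ} {R : Finset (α × β)} {X : Fin q → Finset α}
    {Y : Fin q → Finset β} {slot : Fin q → α × β → Fin P} {ω : α × β → Fin P} {a : α × β} :
    a ∈ allS (smO R X Y slot ω) ↔ a ∈ R ∧ ω a ∈ gl X Y slot a := by
  simp only [allS, smO, gl, Finset.mem_biUnion, Finset.mem_univ, true_and, Finset.mem_filter,
    Finset.mem_image]
  constructor
  · rintro ⟨d, hR, hd, hω⟩
    exact ⟨hR, d, hd, hω.symm⟩
  · rintro ⟨hR, d, hd, hω⟩
    exact ⟨d, hR, hd, hω.symm⟩

/-- The probability part of LB3. -/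
theorem lb3_aux (hTHU : THUStmt) (k L q : ℕ) (D δ η r T Rr ζ : ℝ) (P P' : ℕ)
    (hp : Prm k L q D δ η r T Rr ζ P P') {α β : Type} [Fintype α] [Fintype β]
    (R : Finset (α × β)) (X : Fin q → Finset α) (Y : Fin q → Finset β)
    (slot : Fin q → α × β → Fin P)
    (hR : ∀ a ∈ R, (((Finset.univ.filter fun c => a.1 ∈ X c ∧ a.2 ∈ Y c).card : ℕ) : ℝ) ≤ Rr)
    (I : Finset (α × β)) (hI : I ⊆ R) (hIc : (I.card : ℝ) ≤ (1 + δ) * D) :
    pr {ω : α × β → Fin P | 1 / (L : ℝ) ^ 4 * D ≤
      ∑ a ∈ I, if ω a ∈ gl X Y slot a then (1 : ℝ) else 0} ≤ Real.exp (-((L : ℝ) ^ 2)) := by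
  have hL4 := hp.L4
  have hLR : (10 : ℝ) ^ 4 ≤ L := by exact_mod_cast hL4
  have hL0 : (0 : ℝ) < L := by linarith
  have hLp : (1 : ℝ) ≤ L := by linarith
  have h4 : (0 : ℝ) < (L : ℝ) ^ 4 := by positivity
  have hD0 : 0 < D := lt_of_lt_of_le (by positivity) hp.D1
  have hPR : (0 : ℝ) < P := by
    have := hp.P2
    have h5 : (0 : ℝ) < (L : ℝ) ^ 5 := by positivity
    by_contra hcon
    push Not at hcon
    nlinarith
  have hPN : 0 < P := by exact_mod_cast hPR
  have : Nonempty (Fin P) := ⟨⟨0, hPN⟩⟩
  have hδ1 : δ ≤ 1 / 4 := by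
    by_contra hcon
    push Not at hcon
    have h3 : (100 : ℝ) ≤ (L : ℝ) ^ 3 := by
      calc (100 : ℝ) ≤ L := by linarith
        _ = (L : ℝ) ^ 1 := by ring
        _ ≤ (L : ℝ) ^ 3 := pow_le_pow_right₀ hLp (by norm_num)
    have := hp.d1
    nlinarith
  have key := hTHU (α × β) (Fin P) I (fun _ => 1) (gl X Y slot) 1 1 (D / (4 * (L : ℝ) ^ 4))
    ((1 + δ) * D / (4 * (L : ℝ) ^ 4)) (by norm_num) (by norm_num) (le_refl _)
    (fun _ _ => ⟨by norm_num, le_refl _⟩) ?_
  · refine le_trans (pr_mono ?_) (le_trans key ?_)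
    · intro ω hω
      simp only [Set.mem_ofPred_eq] at hω ⊢
      have h1 : (1 + 1) * ((1 + δ) * D / (4 * (L : ℝ) ^ 4)) + D / (4 * (L : ℝ) ^ 4) ≤
          1 / (L : ℝ) ^ 4 * D := by
        have e1 : (1 + 1) * ((1 + δ) * D / (4 * (L : ℝ) ^ 4)) + D / (4 * (L : ℝ) ^ 4) =
            ((2 * (1 + δ) + 1) / 4) * (D / (L : ℝ) ^ 4) := by
          field_simp
          ring
        have e2 : 1 / (L : ℝ) ^ 4 * D = 1 * (D / (L : ℝ) ^ 4) := by ring
        rw [e1, e2]
        apply mul_le_mul_of_nonneg_right _ (by positivity)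
        linarith
      refine le_trans h1 (le_trans hω (le_of_eq ?_))
      apply Finset.sum_congr rfl
      intro u _
      congr!
    · apply Real.exp_le_exp.mpr
      rw [neg_le_neg_iff, one_mul, div_one, le_div_iff₀ (by positivity)]
      have h19 := hp.D1
      have : (L : ℝ) ^ 2 * (4 * (L : ℝ) ^ 4) ≤ (L : ℝ) ^ 19 := by
        have e : (L : ℝ) ^ 19 = (L : ℝ) ^ 6 * (L : ℝ) ^ 13 := by ring
        have h13 : (4 : ℝ) ≤ (L : ℝ) ^ 13 := by
          calc (4 : ℝ) ≤ L := by linarith
            _ = (L : ℝ) ^ 1 := by ring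
            _ ≤ (L : ℝ) ^ 13 := pow_le_pow_right₀ hLp (by norm_num)
        have h6 : (0 : ℝ) < (L : ℝ) ^ 6 := by positivity
        rw [e]
        nlinarith
      linarith
  · have hb : ∀ a ∈ I, (1 : ℝ) * (((gl X Y slot a).card : ℝ) / (Fintype.card (Fin P) : ℝ)) ≤
        1 / (4 * (L : ℝ) ^ 4) := by
      intro a ha
      have h1 : ((gl X Y slot a).card : ℝ) ≤ Rr := by
        refine le_trans ?_ (hR a (hI ha))
        exact_mod_cast Finset.card_image_le
      have h2 := hp.R1
      rw [one_mul, Fintype.card_fin, div_le_div_iff₀ hPR (by positivity)]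
      nlinarith
    refine le_trans (Finset.sum_le_sum hb) ?_
    rw [Finset.sum_const, nsmul_eq_mul]
    have : (I.card : ℝ) * (1 / (4 * (L : ℝ) ^ 4)) ≤ ((1 + δ) * D) * (1 / (4 * (L : ℝ) ^ 4)) :=
      mul_le_mul_of_nonneg_right hIc (by positivity)
    refine le_trans this (le_of_eq ?_)
    ring

theorem lb3 (hTHU : THUStmt) : LB3Stmt := by
  intro k L q D δ η r T Rr ζ P P' hp α β _ _ E R X Y slot hcl hR c
  have hcard1 : ∀ z : α ⊕ β, -((L : ℝ) ^ 2) = -((L : ℝ) ^ 2 * (({z} : Finset (α ⊕ β)).card)) := by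
    intro z
    simp
  constructor
  · intro x
    right
    refine ⟨lnk_single _ _, ?_, ?_⟩
    · refine ⟨R.filter fun a => a.1 = x ∧ a.2 ∈ Y c, ?_, ?_⟩
      · intro ω ω' hag hω
        simp only [Set.mem_ofPred_eq] at hω ⊢
        have e : (out (R ∩ allS (smO R X Y slot ω)) x ∩ Y c) =
            (out (R ∩ allS (smO R X Y slot ω')) x ∩ Y c) := by
          ext y
          simp only [out, Finset.mem_inter, Finset.mem_filter, Finset.mem_univ, true_and, mem_all]
          by_cases h : (x, y) ∈ R ∧ y ∈ Y c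
          · have := hag (x, y) (Finset.mem_filter.mpr ⟨h.1, rfl, h.2⟩)
            rw [this]
          · tauto
        rw [← e]
        exact hω
      · intro a ha
        have ha := Finset.mem_filter.mp ha
        refine ⟨Sum.inl a.1, ?_, Sum.inl x, by simp, ?_⟩
        · rw [locM, if_pos ((hcl c).sub ha.1)]
          simp
        · rw [ha.2.1]
          exact ⟨_, _, Or.inl rfl, Or.inl rfl, Or.inl rfl⟩
    · rw [← hcard1]
      set I : Finset (α × β) := R.filter fun a => a.1 = x ∧ a.2 ∈ Y c with hI
      have hIc : (I.card : ℝ) ≤ (1 + δ) * D := by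
        refine le_trans ?_ ((hcl c).ou x)
        have : I.card ≤ (out E x ∩ Y c).card := by
          apply Finset.card_le_card_of_injOn Prod.snd
          · intro a ha
            have ha := Finset.mem_filter.mp (Finset.mem_coe.mp ha)
            apply Finset.mem_coe.mpr
            refine Finset.mem_inter.mpr ⟨Finset.mem_filter.mpr ⟨Finset.mem_univ _, ?_⟩, ha.2.2⟩
            rw [← ha.2.1]; exact (hcl c).sub ha.1
          · intro a ha b hb hab
            have ha := Finset.mem_filter.mp (Finset.mem_coe.mp ha)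
            have hb := Finset.mem_filter.mp (Finset.mem_coe.mp hb)
            exact Prod.ext (by rw [ha.2.1, hb.2.1]) hab
        exact_mod_cast this
      refine le_trans (pr_mono ?_) (lb3_aux hTHU k L q D δ η r T Rr ζ P P' hp R X Y slot hR I
        (Finset.filter_subset _ _) hIc)
      intro ω hω
      simp only [Set.mem_ofPred_eq, not_le] at hω ⊢
      refine le_trans hω.le ?_
      rw [Finset.sum_boole]
      have : (out (R ∩ allS (smO R X Y slot ω)) x ∩ Y c).card ≤
          (I.filter fun a => ω a ∈ gl X Y slot a).card := by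
        apply Finset.card_le_card_of_injOn (fun y => (x, y))
        · intro y hy
          have hy := Finset.mem_coe.mp hy
          simp only [out, Finset.mem_inter, Finset.mem_filter, Finset.mem_univ, true_and,
            mem_all] at hy
          apply Finset.mem_coe.mpr
          simp only [hI, Finset.mem_filter]
          exact ⟨⟨hy.1.1, trivial, hy.2⟩, hy.1.2.2⟩
        · intro y _ y' _ h
          exact (Prod.mk.inj h).2
      exact_mod_cast this
  · intro y
    right
    refine ⟨lnk_single _ _, ?_, ?_⟩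
    · refine ⟨R.filter fun a => a.2 = y ∧ a.1 ∈ X c, ?_, ?_⟩
      · intro ω ω' hag hω
        simp only [Set.mem_ofPred_eq] at hω ⊢
        have e : (inn (R ∩ allS (smO R X Y slot ω)) y ∩ X c) =
            (inn (R ∩ allS (smO R X Y slot ω')) y ∩ X c) := by
          ext x
          simp only [inn, Finset.mem_inter, Finset.mem_filter, Finset.mem_univ, true_and, mem_all]
          by_cases h : (x, y) ∈ R ∧ x ∈ X c
          · have := hag (x, y) (Finset.mem_filter.mpr ⟨h.1, rfl, h.2⟩)
            rw [this]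
          · tauto
        rw [← e]
        exact hω
      · intro a ha
        have ha := Finset.mem_filter.mp ha
        refine ⟨Sum.inl a.1, ?_, Sum.inr y, by simp, ?_⟩
        · rw [locM, if_pos ((hcl c).sub ha.1)]
          simp
        · refine ⟨Sum.inr y, Sum.inr y, Or.inr ?_, Or.inl rfl, Or.inl rfl⟩
          show (a.1, y) ∈ E
          rw [← ha.2.1]
          exact (hcl c).sub ha.1
    · rw [← hcard1]
      set I : Finset (α × β) := R.filter fun a => a.2 = y ∧ a.1 ∈ X c with hI
      have hIc : (I.card : ℝ) ≤ (1 + δ) * D := by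
        refine le_trans ?_ ((hcl c).iu y)
        have : I.card ≤ (inn E y ∩ X c).card := by
          apply Finset.card_le_card_of_injOn Prod.fst
          · intro a ha
            have ha := Finset.mem_filter.mp (Finset.mem_coe.mp ha)
            apply Finset.mem_coe.mpr
            refine Finset.mem_inter.mpr ⟨Finset.mem_filter.mpr ⟨Finset.mem_univ _, ?_⟩, ha.2.2⟩
            rw [← ha.2.1]; exact (hcl c).sub ha.1
          · intro a ha b hb hab
            have ha := Finset.mem_filter.mp (Finset.mem_coe.mp ha)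
            have hb := Finset.mem_filter.mp (Finset.mem_coe.mp hb)
            exact Prod.ext hab (by rw [ha.2.1, hb.2.1])
        exact_mod_cast this
      refine le_trans (pr_mono ?_) (lb3_aux hTHU k L q D δ η r T Rr ζ P P' hp R X Y slot hR I
        (Finset.filter_subset _ _) hIc)
      intro ω hω
      simp only [Set.mem_ofPred_eq, not_le] at hω ⊢
      refine le_trans hω.le ?_
      rw [Finset.sum_boole]
      have : (inn (R ∩ allS (smO R X Y slot ω)) y ∩ X c).card ≤
          (I.filter fun a => ω a ∈ gl X Y slot a).card := by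
        apply Finset.card_le_card_of_injOn (fun x => (x, y))
        · intro x hx
          have hx := Finset.mem_coe.mp hx
          simp only [inn, Finset.mem_inter, Finset.mem_filter, Finset.mem_univ, true_and,
            mem_all] at hx
          apply Finset.mem_coe.mpr
          simp only [hI, Finset.mem_filter]
          exact ⟨⟨hx.1.1, trivial, hx.2⟩, hx.1.2.2⟩
        · intro x _ x' _ h
          exact (Prod.mk.inj h).1
      exact_mod_cast this

end Pool.Agent.LAP.H65
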